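import Mathlib

set_option autoImplicit false

namespace Pool.Agent.Helper176.LJ

open Set Topology Filter

section Weak

variable {E : Type*} [NormedAddCommGroup E] [NormedSpace ℝ E]

/-- basic neighbourhoods in a product of lines -/
lemma pi_nhds {α : Type*} {x : α → ℝ} {U : Set (α → ℝ)} (hU : U ∈ 𝓝 x) :
    ∃ s : Finset α, ∃ ε > 0, ∀ y : α → ℝ, (∀ i ∈ s, |y i - x i| < ε) → y ∈ U := by
  rw [nhds_pi, Filter.mem_pi'] at hU
  obtain ⟨I, t, ht, hI⟩ := hU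
  have h1 : ∀ i, ∃ ε > 0, Metric.ball (x i) ε ⊆ t i := fun i => Metric.mem_nhds_iff.1 (ht i)
  choose ε hε hb using h1
  rcases I.eq_empty_or_nonempty with rfl | hne
  · exact ⟨∅, 1, one_pos, fun y _ => hI (by simp)⟩
  · refine ⟨I, I.inf' hne ε, (Finset.lt_inf'_iff hne).2 fun i _ => hε i, fun y hy => hI ?_⟩
    intro i hi
    apply hb i
    rw [Metric.mem_ball, Real.dist_eq]
    exact (hy i hi).trans_le (Finset.inf'_le _ hi)

lemma weakDual_isInducing :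
    IsInducing (fun (Φ : WeakDual ℝ E) (x : E) => Φ x) := ⟨rfl⟩

lemma weakDual_nhds {Φ : WeakDual ℝ E} {U : Set (WeakDual ℝ E)} (hU : U ∈ 𝓝 Φ) :
    ∃ s : Finset E, ∃ ε > 0, ∀ Ψ : WeakDual ℝ E, (∀ i ∈ s, |Ψ i - Φ i| < ε) → Ψ ∈ U := by
  rw [weakDual_isInducing.nhds_eq_comap, Filter.mem_comap] at hU
  obtain ⟨V, hV, hVU⟩ := hU
  obtain ⟨s, ε, hε, h⟩ := pi_nhds hV
  exact ⟨s, ε, hε, fun Ψ hΨ => hVU (h _ hΨ)⟩

/-- Helly / Goldstine -/
lemma helly (Φ : StrongDual ℝ (StrongDual ℝ E)) (hΦ : ‖Φ‖ ≤ 1) (s : Finset (StrongDual ℝ E))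
    {ε : ℝ} (hε : 0 < ε) : ∃ y : E, ‖y‖ ≤ 1 ∧ ∀ φ ∈ s, |φ y - Φ φ| < ε := by
  classical
  let Tm : E →L[ℝ] (s → ℝ) := ContinuousLinearMap.pi fun φ => (φ : StrongDual ℝ E)
  set C := closure (Tm '' Metric.closedBall 0 1) with hC
  have hconv : Convex ℝ C := by
    apply Convex.closure
    exact (convex_closedBall (0 : E) 1).linear_image Tm.toLinearMap
  set p : s → ℝ := fun φ => Φ φ with hp
  have hpC : p ∈ C := by
    by_contra hcon
    obtain ⟨f, v, hf1, hf2⟩ := geometric_hahn_banach_closed_point hconv isClosed_closure hcon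
    set ψ : StrongDual ℝ E := ∑ φ : s, f (Pi.single φ 1) • (φ : StrongDual ℝ E) with hψ
    have hfx : ∀ x : s → ℝ, f x = ∑ φ : s, x φ * f (Pi.single φ 1) := by
      intro x
      conv_lhs => rw [← Finset.univ_sum_single x]
      rw [map_sum]
      refine Finset.sum_congr rfl fun φ _ => ?_
      have : (Pi.single φ (x φ) : s → ℝ) = x φ • Pi.single φ (1 : ℝ) := by
        rw [← Pi.single_smul, smul_eq_mul, mul_one]
      rw [this, map_smul, smul_eq_mul]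
    have h1 : ∀ y, ψ y = f (Tm y) := by
      intro y
      rw [hfx, hψ, FunLike.coe_sum, Finset.sum_apply]
      refine Finset.sum_congr rfl fun φ _ => ?_
      rw [_root_.smul_apply, smul_eq_mul, mul_comm]
      rfl
    have h2 : Φ ψ = f p := by
      rw [hfx, hψ, map_sum]
      refine Finset.sum_congr rfl fun φ _ => ?_
      rw [map_smul, smul_eq_mul, mul_comm]
    have h0 : 0 < v := by
      have := hf1 (Tm 0) (subset_closure ⟨0, by simp, rfl⟩)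
      rwa [map_zero, map_zero] at this
    have h3 : ‖ψ‖ ≤ v := by
      refine ContinuousLinearMap.opNorm_le_of_unit_norm h0.le fun y hy => ?_
      rw [Real.norm_eq_abs, abs_le]
      constructor
      · have := hf1 (Tm (-y)) (subset_closure ⟨-y, by simp [hy], rfl⟩)
        rw [← h1, map_neg] at this
        linarith
      · have := hf1 (Tm y) (subset_closure ⟨y, by simp [hy], rfl⟩)
        rw [← h1] at this
        linarith
    have h4 : Φ ψ ≤ v := by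
      calc Φ ψ ≤ ‖Φ ψ‖ := Real.le_norm_self _
        _ ≤ ‖Φ‖ * ‖ψ‖ := Φ.le_opNorm ψ
        _ ≤ 1 * ‖ψ‖ := mul_le_mul_of_nonneg_right hΦ (norm_nonneg _)
        _ ≤ v := by linarith
    linarith
  obtain ⟨_, ⟨y, hy, rfl⟩, hd⟩ := Metric.mem_closure_iff.1 hpC ε hε
  refine ⟨y, by simpa using hy, fun φ hφ => ?_⟩
  have h1 : dist (p ⟨φ, hφ⟩) (Tm y ⟨φ, hφ⟩) < ε := lt_of_le_of_lt (dist_le_pi_dist _ _ _) hd
  rw [dist_comm, Real.dist_eq] at h1
  exact h1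

end Weak

section Ball

variable (Y : Type*) [NormedAddCommGroup Y] [NormedSpace ℝ Y]

/-- the closed unit ball of the bidual, with the weak-star topology -/
abbrev BidualBall := {Φ : WeakDual ℝ (StrongDual ℝ Y) // ‖WeakDual.toStrongDual Φ‖ ≤ 1}

variable {Y}

instance : CompactSpace (BidualBall Y) := by
  have h := WeakDual.isCompact_closedBall (𝕜 := ℝ) (E := StrongDual ℝ Y) 0 1
  have h2 : (WeakDual.toStrongDual ⁻¹' Metric.closedBall (0 : StrongDual ℝ (StrongDual ℝ Y)) 1) =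
      {Φ : WeakDual ℝ (StrongDual ℝ Y) | ‖WeakDual.toStrongDual Φ‖ ≤ 1} := by
    ext Φ
    exact @mem_closedBall_zero_iff (StrongDual ℝ (StrongDual ℝ Y)) _ (WeakDual.toStrongDual Φ) 1
  rw [h2] at h
  exact isCompact_iff_compactSpace.1 h

/-- canonical embedding of the unit ball -/
noncomputable def J (y : Y) (hy : ‖y‖ ≤ 1) : BidualBall Y :=
  ⟨StrongDual.toWeakDual (NormedSpace.inclusionInDoubleDual ℝ Y y),
    (NormedSpace.double_dual_bound ℝ Y y).trans hy⟩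

lemma J_apply (y : Y) (hy : ‖y‖ ≤ 1) (φ : StrongDual ℝ Y) : (J y hy).1 φ = φ y := rfl

lemma ball_nhds {Φ : BidualBall Y} {U : Set (BidualBall Y)} (hU : U ∈ 𝓝 Φ) :
    ∃ s : Finset (StrongDual ℝ Y), ∃ ε > 0, ∀ Ψ : BidualBall Y,
      (∀ φ ∈ s, |Ψ.1 φ - Φ.1 φ| < ε) → Ψ ∈ U := by
  rw [nhds_subtype_eq_comap, Filter.mem_comap] at hU
  obtain ⟨V, hV, hVU⟩ := hU
  obtain ⟨s, ε, hε, h⟩ := weakDual_nhds hV
  exact ⟨s, ε, hε, fun Ψ hΨ => hVU (h _ hΨ)⟩

lemma continuous_ball_eval (φ : StrongDual ℝ Y) : Continuous fun Φ : BidualBall Y => Φ.1 φ :=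
  (WeakDual.eval_continuous φ).comp continuous_subtype_val

/-- Goldstine: the unit ball is dense in the bidual ball -/
lemma exists_J_mem {O : Set (BidualBall Y)} (hO : IsOpen O) (hne : O.Nonempty) :
    ∃ (y : Y) (hy : ‖y‖ ≤ 1), J y hy ∈ O := by
  obtain ⟨Φ, hΦ⟩ := hne
  obtain ⟨s, ε, hε, h⟩ := ball_nhds (hO.mem_nhds hΦ)
  obtain ⟨y, hy, hys⟩ := helly (WeakDual.toStrongDual Φ.1) Φ.2 s hε
  exact ⟨y, hy, h _ fun φ hφ => hys φ hφ⟩

lemma mem_closure_of_finset {Φ : BidualBall Y} {S : Set (BidualBall Y)}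
    (h : ∀ s : Finset (StrongDual ℝ Y), ∀ ε > 0, ∃ Ψ ∈ S, ∀ φ ∈ s, |Ψ.1 φ - Φ.1 φ| < ε) :
    Φ ∈ closure S := by
  rw [mem_closure_iff_nhds]
  intro U hU
  obtain ⟨s, ε, hε, h1⟩ := ball_nhds hU
  obtain ⟨Ψ, hΨ, h2⟩ := h s ε hε
  exact ⟨Ψ, h1 Ψ h2, hΨ⟩

/-- compactness step of Kaplansky's theorem -/
lemma kaplansky_step (y : Y) (S : Set Y)
    (hS : ∀ s : Finset (StrongDual ℝ Y), ∀ ε > 0, ∃ a ∈ S, ∀ φ ∈ s, |φ a - φ y| < ε) (n : ℕ)
    {ε : ℝ} (hε : 0 < ε) :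
    ∃ F : Finset Y, (F : Set Y) ⊆ S ∧ ∀ φ : Fin n → StrongDual ℝ Y, (∀ i, ‖φ i‖ ≤ 1) →
      ∃ a ∈ F, ∀ i, |φ i a - φ i y| < ε := by
  classical
  set X : Set (Fin n → WeakDual ℝ Y) :=
    Set.pi univ fun _ => WeakDual.toStrongDual ⁻¹' Metric.closedBall 0 1 with hX
  have hXc : IsCompact X := isCompact_univ_pi fun _ => WeakDual.isCompact_closedBall _ _
  let U : S → Set (Fin n → WeakDual ℝ Y) := fun a =>
    {φ | ∀ i, |φ i (a : Y) - φ i y| < ε}
  have hU : ∀ a, IsOpen (U a) := by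
    intro a
    have : U a = ⋂ i, {φ : Fin n → WeakDual ℝ Y | |φ i (a : Y) - φ i y| < ε} := by
      ext φ
      simp [U]
    rw [this]
    refine isOpen_iInter_of_finite fun i => ?_
    refine isOpen_lt (Continuous.abs (Continuous.sub ?_ ?_)) continuous_const
    · exact (WeakDual.eval_continuous (a : Y)).comp (continuous_apply i)
    · exact (WeakDual.eval_continuous y).comp (continuous_apply i)
  have hcov : X ⊆ ⋃ a, U a := by
    intro φ _
    obtain ⟨a, ha, h⟩ := hS (Finset.univ.image fun i => WeakDual.toStrongDual (φ i)) ε hε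
    rw [mem_iUnion]
    exact ⟨⟨a, ha⟩, fun i => h _ (Finset.mem_image_of_mem _ (Finset.mem_univ i))⟩
  obtain ⟨t, ht⟩ := hXc.elim_finite_subcover U hU hcov
  refine ⟨t.image (fun a : S => (a : Y)), ?_, ?_⟩
  · intro a ha
    rw [Finset.mem_coe, Finset.mem_image] at ha
    obtain ⟨b, _, rfl⟩ := ha
    exact b.2
  · intro φ hφ
    have hmem : (fun i => StrongDual.toWeakDual (φ i)) ∈ X := by
      intro i _
      show φ i ∈ Metric.closedBall (0 : StrongDual ℝ Y) 1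
      rw [mem_closedBall_zero_iff]
      exact hφ i
    obtain ⟨a, hat, ha⟩ := mem_iUnion₂.1 (ht hmem)
    exact ⟨a, Finset.mem_image_of_mem _ hat, fun i => ha i⟩

/-- Kaplansky: the weak topology of a normed space has countable tightness -/
lemma kaplansky (y : Y) (S : Set Y)
    (hS : ∀ s : Finset (StrongDual ℝ Y), ∀ ε > 0, ∃ a ∈ S, ∀ φ ∈ s, |φ a - φ y| < ε) :
    ∃ S₀ : Set Y, S₀ ⊆ S ∧ S₀.Countable ∧
      ∀ s : Finset (StrongDual ℝ Y), ∀ ε > 0, ∃ a ∈ S₀, ∀ φ ∈ s, |φ a - φ y| < ε := by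
  classical
  choose F hFS hF using fun n : ℕ =>
    kaplansky_step y S hS n (ε := 1 / ((n : ℝ) + 1)) (by positivity)
  refine ⟨⋃ n, (F n : Set Y), iUnion_subset hFS, countable_iUnion fun n => (F n).countable_toSet,
    ?_⟩
  intro s ε hε
  set C : ℝ := 1 + ∑ φ ∈ s, ‖φ‖ with hC
  have hC0 : 0 < C := by
    have : 0 ≤ ∑ φ ∈ s, ‖φ‖ := Finset.sum_nonneg fun _ _ => norm_nonneg _
    linarith
  obtain ⟨m, hm⟩ := exists_nat_gt (C / ε)
  set n := max m s.card with hn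
  have hnε : C * (1 / ((n : ℝ) + 1)) < ε := by
    rw [mul_one_div, div_lt_iff₀ (by positivity)]
    rw [div_lt_iff₀ hε] at hm
    have : (m : ℝ) ≤ n := by exact_mod_cast le_max_left _ _
    nlinarith
  let e := s.equivFin
  let φ : Fin n → StrongDual ℝ Y := fun i =>
    if h : (i : ℕ) < s.card then C⁻¹ • (e.symm ⟨i, h⟩ : StrongDual ℝ Y) else 0
  have hφ : ∀ i, ‖φ i‖ ≤ 1 := by
    intro i
    simp only [φ]
    split_ifs with h
    · rw [norm_smul, norm_inv, Real.norm_eq_abs, abs_of_pos hC0, inv_mul_le_iff₀ hC0, mul_one]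
      have : ‖(e.symm ⟨i, h⟩ : StrongDual ℝ Y)‖ ≤ ∑ φ ∈ s, ‖φ‖ :=
        Finset.single_le_sum (f := fun φ => ‖φ‖) (fun _ _ => norm_nonneg _) (e.symm ⟨i, h⟩).2
      linarith
    · simp
  obtain ⟨a, ha, hai⟩ := hF n φ hφ
  refine ⟨a, mem_iUnion.2 ⟨n, ha⟩, fun ψ hψ => ?_⟩
  have hlt : ((e ⟨ψ, hψ⟩ : Fin s.card) : ℕ) < n :=
    lt_of_lt_of_le (e ⟨ψ, hψ⟩).2 (le_max_right _ _)
  have h1 := hai ⟨(e ⟨ψ, hψ⟩ : Fin s.card), hlt⟩
  have h2 : φ ⟨(e ⟨ψ, hψ⟩ : Fin s.card), hlt⟩ = C⁻¹ • ψ := by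
    simp only [φ, dif_pos (e ⟨ψ, hψ⟩).2]
    simp
  rw [h2] at h1
  simp only [_root_.smul_apply, smul_eq_mul] at h1
  rw [← mul_sub, abs_mul, abs_inv, abs_of_pos hC0, inv_mul_lt_iff₀ hC0] at h1
  exact h1.trans hnε

end Ball

end Pool.Agent.Helper176.LJ
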